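import Pool.Agent.helper44.EX.Spec

/-!
# AVG: the average (project ex)
-/

set_option autoImplicit false

open Complex Metric Set Filter Topology MeasureTheory Pool.Agent.helper98.ILF

noncomputable section

namespace EX

theorem AVG_kappa (a b : ℂ) (ha : a ≠ 0) (hb : ‖b‖ = 1) :
    ‖(starRingEnd ℂ) a / a - (b ^ 2)⁻¹‖ ≤ 2 * ‖a - b‖ := by
  have hb0 : b ≠ 0 := by
    intro h
    rw [h, norm_zero] at hb
    exact zero_ne_one hb
  have hbb : (starRingEnd ℂ) b * b = 1 := by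
    rw [mul_comm, Complex.mul_conj, Complex.normSq_eq_norm_sq, hb]
    norm_num
  have hna : 0 < ‖a‖ := norm_pos_iff.2 ha
  have e1 : (b ^ 2)⁻¹ = (starRingEnd ℂ) b / b := by
    field_simp
    rw [← hbb]
    ring
  have e2 : (starRingEnd ℂ) a / a - (starRingEnd ℂ) b / b =
      ((starRingEnd ℂ) a * (b - a) + a * (starRingEnd ℂ) (a - b)) / (a * b) := by
    rw [map_sub]
    field_simp
    ring
  rw [e1, e2, norm_div, norm_mul a b, hb, mul_one, div_le_iff₀ hna]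
  calc ‖(starRingEnd ℂ) a * (b - a) + a * (starRingEnd ℂ) (a - b)‖
      ≤ ‖(starRingEnd ℂ) a * (b - a)‖ + ‖a * (starRingEnd ℂ) (a - b)‖ := norm_add_le _ _
    _ = ‖a‖ * ‖a - b‖ + ‖a‖ * ‖a - b‖ := by
        rw [norm_mul, norm_mul, Complex.norm_conj, Complex.norm_conj, norm_sub_rev b a]
    _ = 2 * ‖a - b‖ * ‖a‖ := by ring

theorem AVG_point (m ms e ω κ : ℂ) (η : ℝ) (hω : ‖ω‖ = 1) (he : ‖e‖ = 1) (hms : ‖ms‖ ≤ 1)
    (hm : m = ms * κ) (hκ : ‖κ - (ω ^ 2)⁻¹‖ ≤ 2 * η) :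
    ‖1 - ω ^ 2‖ ≤ ‖m - e‖ + 2 * η + ‖ms - e‖ := by
  have hω2 : ‖ω ^ 2‖ = 1 := by rw [norm_pow, hω, one_pow]
  have hω0 : ω ^ 2 ≠ 0 := by
    intro h
    rw [h, norm_zero] at hω2
    exact zero_ne_one hω2
  have e1 : ‖e - (ω ^ 2)⁻¹ * e‖ = ‖1 - ω ^ 2‖ := by
    have : e - (ω ^ 2)⁻¹ * e = -((ω ^ 2)⁻¹ * (1 - ω ^ 2) * e) := by
      rw [mul_sub, inv_mul_cancel₀ hω0]
      ring
    rw [this, norm_neg, norm_mul, norm_mul, norm_inv, hω2, he, inv_one, one_mul, mul_one]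
  have e2 : e - (ω ^ 2)⁻¹ * e = -(m - e) + ms * (κ - (ω ^ 2)⁻¹) + (ms - e) * (ω ^ 2)⁻¹ := by
    rw [hm]
    ring
  rw [← e1, e2]
  calc ‖-(m - e) + ms * (κ - (ω ^ 2)⁻¹) + (ms - e) * (ω ^ 2)⁻¹‖
      ≤ ‖-(m - e) + ms * (κ - (ω ^ 2)⁻¹)‖ + ‖(ms - e) * (ω ^ 2)⁻¹‖ := norm_add_le _ _
    _ ≤ (‖-(m - e)‖ + ‖ms * (κ - (ω ^ 2)⁻¹)‖) + ‖(ms - e) * (ω ^ 2)⁻¹‖ := by
        gcongr
        exact norm_add_le _ _
    _ = (‖m - e‖ + ‖ms‖ * ‖κ - (ω ^ 2)⁻¹‖) + ‖ms - e‖ := by
        rw [norm_neg, norm_mul, norm_mul, norm_inv, hω2, inv_one, mul_one]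
    _ ≤ ‖m - e‖ + 2 * η + ‖ms - e‖ := by
        have h1 : ‖ms‖ * ‖κ - (ω ^ 2)⁻¹‖ ≤ 1 * (2 * η) :=
          mul_le_mul hms hκ (norm_nonneg _) zero_le_one
        linarith

theorem AVG_vol (p : ℂ) (s : ℝ) (hs : 0 < s) : volume.real (ball p s) = Real.pi * s ^ 2 := by
  rw [Measure.real, Complex.volume_ball, ENNReal.toReal_mul, ENNReal.toReal_pow,
    ENNReal.toReal_ofReal hs.le]
  simp [mul_comm]

theorem AVG (hCVL : CVL_stmt) : AVG_stmt := by
  refine ⟨5, by norm_num, ?_⟩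
  intro μ S ω e p s η hμ hμ1 hω he hs hη hη4 hS hinj hmaps hder hinv
  set h : ℂ → ℝ := fun z => ‖μ z - e‖ with hh
  have hhm : Measurable h := (hμ.sub_const e).norm
  have hh0 : ∀ z, 0 ≤ h z ∧ h z ≤ 2 := by
    intro z
    refine ⟨norm_nonneg _, ?_⟩
    calc ‖μ z - e‖ ≤ ‖μ z‖ + ‖e‖ := norm_sub_le _ _
      _ ≤ 1 + 1 := add_le_add (hμ1 z) he.le
      _ = 2 := by norm_num
  have hBm : MeasurableSet (ball p s) := measurableSet_ball
  have hfin : ∀ r : ℝ, volume (ball p r) < ⊤ := fun r => measure_ball_lt_top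
  have hSae : AEMeasurable S (volume.restrict (ball p s)) :=
    (hS.continuousOn).aemeasurable hBm
  have hint1 : ∀ r : ℝ, IntegrableOn h (ball p r) := by
    intro r
    haveI : IsFiniteMeasure (volume.restrict (ball p r)) := ⟨by
      rw [Measure.restrict_apply_univ]; exact hfin r⟩
    refine Integrable.of_bound (C := 2) hhm.aestronglyMeasurable ?_
    exact Filter.Eventually.of_forall fun z => by
      rw [Real.norm_of_nonneg (hh0 z).1]
      exact (hh0 z).2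
  have hint2 : IntegrableOn (fun z => h (S z)) (ball p s) := by
    haveI : IsFiniteMeasure (volume.restrict (ball p s)) := ⟨by
      rw [Measure.restrict_apply_univ]; exact hfin s⟩
    refine Integrable.of_bound (C := 2) (hhm.comp_aemeasurable hSae).aestronglyMeasurable ?_
    exact Filter.Eventually.of_forall fun z => by
      rw [Real.norm_of_nonneg (hh0 _).1]
      exact (hh0 _).2
  have hint3 : IntegrableOn (fun _ : ℂ => (2 * η : ℝ)) (ball p s) :=
    integrableOn_const (hfin s).ne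
  have hcvl := hCVL S h p s hs hhm hh0 hS hinj hmaps (by
    intro z hz
    have h1 : ‖ω‖ ≤ ‖deriv S z‖ + ‖deriv S z - ω‖ := by
      have : ω = deriv S z - (deriv S z - ω) := by ring
      calc ‖ω‖ = ‖deriv S z - (deriv S z - ω)‖ := by rw [← this]
        _ ≤ ‖deriv S z‖ + ‖deriv S z - ω‖ := norm_sub_le _ _
    have h2 := hder z hz
    rw [hω] at h1
    linarith)
  have hsub : ball p s ⊆ ball p (2 * s) := ball_subset_ball (by linarith)
  have hmono : ∫ z in ball p s, h z ≤ ∫ z in ball p (2 * s), h z :=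
    setIntegral_mono_set (hint1 _) (Filter.Eventually.of_forall fun z => (hh0 z).1)
      (LE.le.eventuallyLE hsub)
  have hmain : ∫ _z in ball p s, ‖1 - ω ^ 2‖ ≤
      ∫ z in ball p s, (h z + 2 * η + h (S z)) := by
    refine setIntegral_mono_ae_restrict (integrableOn_const (hfin s).ne)
      (((hint1 s).add hint3).add hint2) ?_
    rw [Filter.EventuallyLE, ae_restrict_iff' hBm]
    filter_upwards [hinv] with z hz hzB
    have h1 := hz hzB
    have h2 := hder z hzB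
    have h3 : deriv S z ≠ 0 := by
      intro h0
      rw [h0, zero_sub, norm_neg, hω] at h2
      linarith
    refine AVG_point (μ z) (μ (S z)) e ω ((starRingEnd ℂ) (deriv S z) / deriv S z) η hω he
      (hμ1 _) ?_ ?_
    · rw [← h1]
      ring
    · exact (AVG_kappa _ _ h3 hω).trans (by linarith)
  rw [setIntegral_const, AVG_vol p s hs, smul_eq_mul] at hmain
  have hsplit : ∫ z in ball p s, (h z + 2 * η + h (S z)) =
      (∫ z in ball p s, h z) + Real.pi * s ^ 2 * (2 * η) + ∫ z in ball p s, h (S z) := by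
    have hA : IntegrableOn (fun z => h z + 2 * η) (ball p s) := (hint1 s).add hint3
    rw [integral_add hA hint2, integral_add (hint1 s) hint3, setIntegral_const,
      AVG_vol p s hs, smul_eq_mul]
  rw [hsplit] at hmain
  have hI0 : 0 ≤ ∫ z in ball p (2 * s), h z :=
    setIntegral_nonneg measurableSet_ball fun z _ => (hh0 z).1
  have hpi : 3 < Real.pi := Real.pi_gt_three
  set I : ℝ := ∫ z in ball p (2 * s), h z with hI
  have h5 : Real.pi * (‖1 - ω ^ 2‖ * s ^ 2) ≤ 5 * I + Real.pi * (2 * η * s ^ 2) := by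
    have : Real.pi * s ^ 2 * ‖1 - ω ^ 2‖ ≤ I + Real.pi * s ^ 2 * (2 * η) + 4 * I := by
      linarith
    nlinarith
  have h6 : Real.pi * (‖1 - ω ^ 2‖ * s ^ 2) ≤ Real.pi * (5 * I + 5 * η * s ^ 2) := by
    have h7 : 5 * I ≤ Real.pi * (5 * I) := by nlinarith
    have h8 : 0 ≤ η * s ^ 2 := by positivity
    have h9 : Real.pi * (2 * η * s ^ 2) ≤ Real.pi * (5 * η * s ^ 2) := by
      apply mul_le_mul_of_nonneg_left _ Real.pi_pos.le
      nlinarith
    linarith
  exact le_of_mul_le_mul_left h6 Real.pi_pos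

end EX
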